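import Mathlib

set_option autoImplicit false

/-!
# Kernels of normal Carleman operators

For a normal Carleman operator `N` on `L²(μ)` with kernel `ν` and a measurable set `s` let `P` be the
multiplication by the indicator of `s`. Then `N P` and `N* P` have the same Hilbert-Schmidt norm, and so have
`N* P` and `P N`; computed with the kernel this gives
`∫_s ∫ |ν(x, t)|² dx dt = ∫_s ∫ |ν(t, y)|² dy dt` for all `s`. So almost all columns have the same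
norm as the corresponding rows.
-/

open MeasureTheory ComplexConjugate
open scoped ENNReal InnerProductSpace

namespace Pool.Agent.Results.MP_0ee9ff_an.RowsAndColumns

/-- `N` is a Carleman operator on `L²(μ)` with kernel `ν`. -/
def IsCarleman {α : Type*} [MeasurableSpace α] (μ : Measure α) (N : Lp ℂ 2 μ →L[ℂ] Lp ℂ 2 μ)
    (ν : α × α → ℂ) : Prop :=
  AEMeasurable ν (μ.prod μ) ∧ (∀ᵐ x ∂μ, ∫⁻ y, ‖ν (x, y)‖ₑ ^ 2 ∂μ < ∞) ∧
    ∀ f : Lp ℂ 2 μ, ∀ᵐ x ∂μ, (N f) x = ∫ y, ν (x, y) * f y ∂μ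

section Hilbert

variable {H : Type*} [NormedAddCommGroup H] [InnerProductSpace ℂ H]

lemma parseval {ι : Type*} (b : HilbertBasis ι ℂ H) (f : H) :
    ∑' i, ‖⟪b i, f⟫_ℂ‖ₑ ^ 2 = ‖f‖ₑ ^ 2 := by
  have h := b.hasSum_inner_mul_inner f f
  have h1 : HasSum (fun i => ‖⟪b i, f⟫_ℂ‖ ^ 2) (‖f‖ ^ 2) := by
    have h2 := Complex.hasSum_re h
    convert h2 using 1
    · funext i
      rw [← inner_conj_symm f (b i), mul_comm, Complex.mul_conj, Complex.normSq_eq_norm_sq]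
      norm_cast
    · rw [inner_self_eq_norm_sq_to_K]
      norm_cast
  have h3 : ∀ i, ‖⟪b i, f⟫_ℂ‖ₑ ^ 2 = ENNReal.ofReal (‖⟪b i, f⟫_ℂ‖ ^ 2) := by
    intro i
    rw [← ofReal_norm, ENNReal.ofReal_pow (norm_nonneg _)]
  simp_rw [h3]
  rw [← ENNReal.ofReal_tsum_of_nonneg (fun i => by positivity) h1.summable, h1.tsum_eq,
    ← ofReal_norm, ENNReal.ofReal_pow (norm_nonneg _)]

lemma parseval' {ι : Type*} (b : HilbertBasis ι ℂ H) (f : H) :
    ∑' i, ‖⟪f, b i⟫_ℂ‖ₑ ^ 2 = ‖f‖ₑ ^ 2 := by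
  rw [← parseval b f]
  refine tsum_congr fun i => ?_
  rw [← ofReal_norm, ← ofReal_norm, norm_inner_symm]

/-- The Hilbert-Schmidt identity. -/
lemma hs {ι : Type*} (b : HilbertBasis ι ℂ H) (A B : H → H) (h : ∀ f g, ⟪f, A g⟫_ℂ = ⟪B f, g⟫_ℂ) :
    ∑' i, ‖A (b i)‖ₑ ^ 2 = ∑' i, ‖B (b i)‖ₑ ^ 2 := by
  have h1 : ∀ i, ‖A (b i)‖ₑ ^ 2 = ∑' j, ‖⟪B (b j), b i⟫_ℂ‖ₑ ^ 2 := by
    intro i
    rw [← parseval b]
    refine tsum_congr fun j => ?_
    rw [h]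
  simp_rw [h1]
  rw [ENNReal.tsum_comm]
  exact tsum_congr fun j => parseval' b _

lemma countable_basis [SecondCountableTopology H] {ι : Type*} (b : HilbertBasis ι ℂ H) :
    Countable ι := by
  have hb := b.orthonormal
  have hdist : ∀ i j, i ≠ j → 1 ≤ dist (b i) (b j) := by
    intro i j hij
    have h0 : ⟪b i, b j⟫_ℂ = 0 := hb.2 hij
    have h1 : ‖b i - b j‖ ^ 2 = 2 := by
      rw [@norm_sub_sq ℂ, h0, hb.1 i, hb.1 j]
      simp
      norm_num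
    rw [dist_eq_norm]
    by_contra hlt
    push Not at hlt
    have : ‖b i - b j‖ ^ 2 < 1 := by
      have := norm_nonneg (b i - b j)
      nlinarith
    linarith
  have hinj : Function.Injective b := fun i j hij => by
    by_contra hne
    have := hdist i j hne
    rw [hij, dist_self] at this
    linarith
  have hd : DiscreteTopology (Set.range b) := by
    refine DiscreteTopology.of_forall_le_dist one_pos ?_
    rintro ⟨_, i, rfl⟩ ⟨_, j, rfl⟩ hne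
    exact hdist i j fun h => hne (Subtype.ext (by rw [h]))
  have : Countable (Set.range b) :=
    TopologicalSpace.separableSpace_iff_countable.1 inferInstance
  exact (Set.rangeFactorization_injective.2 hinj).countable

end Hilbert

section Main

variable {α : Type*} [MeasurableSpace α] {μ : Measure α}

lemma enorm_sq (f : Lp ℂ 2 μ) : ‖f‖ₑ ^ 2 = ∫⁻ x, ‖f x‖ₑ ^ 2 ∂μ := by
  rw [Lp.enorm_def, eLpNorm_eq_lintegral_rpow_enorm_toReal two_ne_zero ENNReal.ofNat_ne_top,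
    ← ENNReal.rpow_natCast, ← ENNReal.rpow_mul]
  simp

/-- Multiplication with the indicator of `s`. -/
noncomputable def mulInd (s : Set α) (hs : MeasurableSet s) (f : Lp ℂ 2 μ) : Lp ℂ 2 μ :=
  ((Lp.memLp f).indicator hs).toLp _

lemma mulInd_coe (s : Set α) (hs : MeasurableSet s) (f : Lp ℂ 2 μ) :
    mulInd s hs f =ᵐ[μ] s.indicator f := MemLp.coeFn_toLp _

lemma inner_mulInd (s : Set α) (hs : MeasurableSet s) (f g : Lp ℂ 2 μ) :
    ⟪f, mulInd s hs g⟫_ℂ = ⟪mulInd s hs f, g⟫_ℂ := by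
  rw [L2.inner_def, L2.inner_def]
  refine integral_congr_ae ?_
  filter_upwards [mulInd_coe s hs f, mulInd_coe s hs g] with x h1 h2
  rw [h1, h2]
  by_cases hx : x ∈ s <;> simp [hx]

lemma enorm_mulInd (s : Set α) (hs : MeasurableSet s) (f : Lp ℂ 2 μ) :
    ‖mulInd s hs f‖ₑ ^ 2 = ∫⁻ x in s, ‖f x‖ₑ ^ 2 ∂μ := by
  rw [enorm_sq, ← lintegral_indicator hs]
  refine lintegral_congr_ae ?_
  filter_upwards [mulInd_coe s hs f] with x h1
  rw [h1]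
  by_cases hx : x ∈ s <;> simp [hx]

lemma exists_row {N : Lp ℂ 2 μ →L[ℂ] Lp ℂ 2 μ} {ν : α × α → ℂ} [SFinite μ] (hC : IsCarleman μ N ν)
    {ι : Type*} [Countable ι] (f : ι → Lp ℂ 2 μ) :
    ∀ᵐ x ∂μ, ∃ K : Lp ℂ 2 μ, (∀ s : Set α, ∫⁻ y in s, ‖K y‖ₑ ^ 2 ∂μ = ∫⁻ y in s, ‖ν (x, y)‖ₑ ^ 2 ∂μ) ∧
      ∀ i, (N (f i)) x = ⟪K, f i⟫_ℂ := by
  obtain ⟨h1, h2, h3⟩ := hC
  have h4 : ∀ᵐ x ∂μ, ∀ i, (N (f i)) x = ∫ y, ν (x, y) * f i y ∂μ := ae_all_iff.2 fun i => h3 (f i)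
  have h5 : ∀ᵐ x ∂μ, AEStronglyMeasurable (fun y => ν (x, y)) μ :=
    h1.aestronglyMeasurable.prodMk_left
  filter_upwards [h2, h4, h5] with x h2 h4 h5
  have hm : MemLp (fun y => conj (ν (x, y))) 2 μ := by
    refine ⟨Complex.continuous_conj.comp_aestronglyMeasurable h5, ?_⟩
    rw [eLpNorm_lt_top_iff_lintegral_rpow_enorm_lt_top two_ne_zero ENNReal.ofNat_ne_top]
    convert h2 using 3 with y
    rw [← ofReal_norm, ← ofReal_norm]
    simp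
  have hK := hm.coeFn_toLp
  refine ⟨hm.toLp _, fun s => ?_, fun i => ?_⟩
  · refine lintegral_congr_ae ?_
    filter_upwards [ae_restrict_of_ae hK] with y hy
    rw [hy, ← ofReal_norm, ← ofReal_norm]
    simp
  · rw [h4 i, L2.inner_def]
    refine integral_congr_ae ?_
    filter_upwards [hK] with y hy
    rw [hy]
    simp [mul_comm]

theorem identity [MeasurableSpace.CountablyGenerated α] [SigmaFinite μ]
    {N : Lp ℂ 2 μ →L[ℂ] Lp ℂ 2 μ} {ν : α × α → ℂ} (hC : IsCarleman μ N ν) (hN : IsStarNormal N)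
    (s : Set α) (hs' : MeasurableSet s) :
    ∫⁻ x, ∫⁻ y in s, ‖ν (x, y)‖ₑ ^ 2 ∂μ ∂μ = ∫⁻ x in s, ∫⁻ y, ‖ν (x, y)‖ₑ ^ 2 ∂μ ∂μ := by
  have : Fact ((2 : ℝ≥0∞) ≠ ∞) := ⟨ENNReal.ofNat_ne_top⟩
  obtain ⟨w, b, -⟩ := exists_hilbertBasis ℂ (Lp ℂ 2 μ)
  have : Countable w := countable_basis b
  have e1 : ∑' i, ‖N (mulInd s hs' (b i))‖ₑ ^ 2 = ∫⁻ x, ∫⁻ y in s, ‖ν (x, y)‖ₑ ^ 2 ∂μ ∂μ := by
    simp_rw [enorm_sq]
    rw [← lintegral_tsum fun i => (Lp.aestronglyMeasurable _).enorm.pow_const 2]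
    refine lintegral_congr_ae ?_
    filter_upwards [exists_row hC fun i => mulInd s hs' (b i)] with x ⟨K, hK1, hK2⟩
    simp_rw [hK2, inner_mulInd]
    rw [parseval', enorm_mulInd, hK1]
  have e2 : ∑' i, ‖mulInd s hs' (N (b i))‖ₑ ^ 2 = ∫⁻ x in s, ∫⁻ y, ‖ν (x, y)‖ₑ ^ 2 ∂μ ∂μ := by
    simp_rw [enorm_mulInd]
    rw [← lintegral_tsum fun i => ((Lp.aestronglyMeasurable _).enorm.pow_const 2).restrict]
    refine lintegral_congr_ae (ae_restrict_of_ae ?_)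
    filter_upwards [exists_row hC fun i => b i] with x ⟨K, hK1, hK2⟩
    simp_rw [hK2]
    rw [parseval', enorm_sq, ← setLIntegral_univ, hK1, setLIntegral_univ]
  have e3 : ∑' i, ‖N (mulInd s hs' (b i))‖ₑ ^ 2 =
      ∑' i, ‖N.adjoint (mulInd s hs' (b i))‖ₑ ^ 2 := by
    refine tsum_congr fun i => ?_
    rw [← ofReal_norm, ← ofReal_norm,
      ContinuousLinearMap.isStarNormal_iff_norm_eq_adjoint.mp hN]
  have e4 : ∑' i, ‖N.adjoint (mulInd s hs' (b i))‖ₑ ^ 2 =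
      ∑' i, ‖mulInd s hs' (N (b i))‖ₑ ^ 2 := by
    refine hs b (fun g => N.adjoint (mulInd s hs' g)) (fun g => mulInd s hs' (N g)) fun f g => ?_
    rw [ContinuousLinearMap.adjoint_inner_right, inner_mulInd]
  rw [← e1, e3, e4, e2]

end Main

/-- If `N` is a normal Carleman operator with kernel `ν`, then
`∫ |ν(x, t)|² dx = ∫ |ν(t, y)|² dy < ∞` for almost every `t`. -/
theorem result {α : Type*} [MeasurableSpace α] [MeasurableSpace.CountablyGenerated α] (μ : Measure α)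
    [SigmaFinite μ] (N : Lp ℂ 2 μ →L[ℂ] Lp ℂ 2 μ) (ν : α × α → ℂ) (hC : IsCarleman μ N ν)
    (hN : N * star N = star N * N) :
    (∀ᵐ t ∂μ, ∫⁻ x, ‖ν (x, t)‖ₑ ^ 2 ∂μ = ∫⁻ y, ‖ν (t, y)‖ₑ ^ 2 ∂μ) ∧
      ∀ᵐ t ∂μ, ∫⁻ x, ‖ν (x, t)‖ₑ ^ 2 ∂μ < ∞ := by
  have hN' : IsStarNormal N := ⟨hN.symm⟩
  have hm : AEMeasurable (fun z => ‖ν z‖ₑ ^ 2) (μ.prod μ) := hC.1.enorm.pow_const 2
  have key : (fun t => ∫⁻ x, ‖ν (x, t)‖ₑ ^ 2 ∂μ) =ᵐ[μ] fun t => ∫⁻ y, ‖ν (t, y)‖ₑ ^ 2 ∂μ := by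
    refine ae_eq_of_forall_setLIntegral_eq_of_sigmaFinite₀ ?_ ?_ fun s hs _ => ?_
    · exact hm.prod_swap.lintegral_prod_right'
    · exact hm.lintegral_prod_right'
    · rw [← identity hC hN' s hs, lintegral_lintegral_swap]
      have h := hm.prod_swap.restrict (s := s ×ˢ Set.univ)
      rw [← Measure.prod_restrict, Measure.restrict_univ] at h
      exact h
  refine ⟨key, ?_⟩
  filter_upwards [key, hC.2.1] with t h1 h2
  rw [h1]
  exact h2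

end Pool.Agent.Results.MP_0ee9ff_an.RowsAndColumns
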